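import Pool.Agent.H63.Conj.Step

set_option autoImplicit false
open MeasureTheory

namespace Pool.Agent.Results.MP_a7cd30_an.UniversalCompact

/-- Automorphisms of the unit interval with Lebesgue measure: Borel automorphisms of the line that
preserve the restriction of Lebesgue measure to `[0,1]`. -/
abbrev Aut : Type :=
  {e : ℝ ≃ᵐ ℝ // MeasurePreserving (⇑e) (volume.restrict (Set.Icc (0:ℝ) 1))
    (volume.restrict (Set.Icc (0:ℝ) 1))}

/-- The weak topology: the coarsest topology for which all the functions
`T ↦ λ(T⁻¹A ∩ B)`, with `A`, `B` Borel, are continuous. -/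
noncomputable abbrev weakTopology : TopologicalSpace Aut :=
  ⨅ (A : Set ℝ) (_ : MeasurableSet A) (B : Set ℝ) (_ : MeasurableSet B),
    TopologicalSpace.induced
      (fun T : Aut => ((volume.restrict (Set.Icc (0:ℝ) 1)) ((⇑T.1) ⁻¹' A ∩ B)).toReal)
      (inferInstance : TopologicalSpace ℝ)

/-- The automorphisms that are a.e. equal to a conjugate `R⁻¹SR` of some `S ∈ K`. -/
def orbit (K : Set Aut) : Set Aut :=
  {T | ∃ R S : Aut, S ∈ K ∧ Filter.EventuallyEq (ae (volume.restrict (Set.Icc (0:ℝ) 1)))
        (⇑T.1) (fun x => R.1.symm (S.1 (R.1 x)))}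

/-- There is a compact set of automorphisms that meets every conjugacy class; in particular the
union of the conjugacy classes of its elements is not meagre. -/
theorem result : ∃ K : Set Aut, @IsCompact Aut weakTopology K ∧ orbit K = Set.univ ∧
    ¬ @IsMeagre Aut weakTopology (orbit K) := by
  have h : orbit Pool.Agent.H63.Conj.K = Set.univ := by
    rw [Set.eq_univ_iff_forall]
    intro T
    obtain ⟨R, S, hS, hT⟩ := Pool.Agent.H63.Conj.exists_conj T
    refine ⟨R, S, ?_, Filter.Eventually.of_forall hT⟩
    exact @subset_closure _ Pool.Agent.H63.Conj.pm.toUniformSpace.toTopologicalSpace _ _ hS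
  refine ⟨Pool.Agent.H63.Conj.K, Pool.Agent.H63.Conj.isCompact_K, h, ?_⟩
  rw [h]
  exact Pool.Agent.H63.Conj.univ_not_meagre

end Pool.Agent.Results.MP_a7cd30_an.UniversalCompact
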